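import Pool.Agent.H884Z.SR.Main

set_option autoImplicit false

namespace Pool.Agent.Results.MP_366c56_co.ATreesBeta

open Pool.Agent.H884Z.SR

/-- There is an absolute constant `C` such that for all `r ≥ 2` and every finite tree `T` with at
least two vertices and bipartition `V₁, V₂` some finite graph `G` with at most
`C r² (log r) β(T)` edges has a monochromatic copy of `T` in every `r`-colouring of its edges. -/
theorem result : ∃ C : ℝ, ∀ r : ℕ, 2 ≤ r → ∀ (V : Type) [Fintype V] [Nontrivial V]
    (T : SimpleGraph V), T.IsTree → ∀ V₁ V₂ : Finset V, T.IsBipartiteWith V₁ V₂ →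
      (∀ v, v ∈ V₁ ∨ v ∈ V₂) →
      ∃ (N : ℕ) (G : SimpleGraph (Fin N)), Arrows G r T ∧
        (G.edgeSet.ncard : ℝ) ≤ C * (r : ℝ) ^ 2 * Real.log r * beta T V₁ V₂ := main

end Pool.Agent.Results.MP_366c56_co.ATreesBeta
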